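import Pool.Agent.MP_5c28a4_al.H89S.Spec

/-!
Row B1: finiteness of finitely generated soluble torsion groups, power subgroups, towers.
-/

set_option autoImplicit false

namespace Pool.Agent.MP_5c28a4_al.H89S

open scoped commutatorElement

namespace BFinA

variable {G G' : Type} [Group G] [Group G']

/-- a finitely generated soluble torsion group is finite -/
theorem finite_of_tors (hs : Group.IsSolvable G) (hf : Group.FG G)
    (ht : ∀ x : G, IsOfFinOrder x) : Finite G := by
  have key : ∀ n, (derivedSeries G n).FiniteIndex := by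
    intro n
    induction n with
    | zero => exact ⟨Subgroup.index_top.trans_ne one_ne_zero⟩
    | succ n ih =>
      have h1 : IsMulTorsion (derivedSeries G n) := IsMulTorsion.subgroup ht _
      have h2 : Group.FG (Abelianization (derivedSeries G n)) := QuotientGroup.fg _
      have h3 : Finite (Abelianization (derivedSeries G n)) :=
        CommGroup.finite_of_fg_isMulTorsion _
          (h1.of_surjective (f := Abelianization.of) Quot.mk_surjective)
      have h4 : (commutator (derivedSeries G n)).FiniteIndex :=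
        @Subgroup.finiteIndex_of_finite_quotient _ _ _ h3
      refine ⟨?_⟩
      rw [derivedSeries_succ, ← Subgroup.map_subtype_commutator, Subgroup.index_map_subtype]
      exact mul_ne_zero h4.1 ih.1
  obtain ⟨n, hn⟩ := hs.1
  have h := (key n).1
  rw [hn, Subgroup.index_bot] at h
  exact Nat.finite_of_card_ne_zero h

theorem pow_mem {H : Subgroup G} {n : ℕ} {y : G} (hy : y ∈ H) : y ^ n ∈ pw H n :=
  Subgroup.subset_closure ⟨y, hy, rfl⟩

theorem pw_map (f : G →* G') (H : Subgroup G) (n : ℕ) : (pw H n).map f = pw (H.map f) n := by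
  rw [pw, pw, MonoidHom.map_closure]
  congr 1
  ext x
  constructor
  · rintro ⟨_, ⟨y, hy, rfl⟩, rfl⟩
    exact ⟨f y, ⟨y, hy, rfl⟩, map_pow f y n⟩
  · rintro ⟨_, ⟨y, hy, rfl⟩, rfl⟩
    exact ⟨y ^ n, ⟨y, hy, rfl⟩, map_pow f y n⟩

theorem pw_normal {H : Subgroup G} (n : ℕ) (h : H.Normal) : (pw H n).Normal := by
  refine ⟨fun x hx g => ?_⟩
  have h1 : pw H n ≤ (pw H n).comap (MulAut.conj g).toMonoidHom := by
    refine (Subgroup.closure_le _).2 ?_
    rintro _ ⟨y, hy, rfl⟩
    rw [SetLike.mem_coe, Subgroup.mem_comap, map_pow]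
    exact pow_mem (h.conj_mem y hy g)
  exact h1 hx

theorem pw_fi {H : Subgroup G} {n : ℕ} (hs : Group.IsSolvable G) (hf : Group.FG G)
    (hH : H.FiniteIndex) (hn : 0 < n) : (pw H n).FiniteIndex := by
  have h1 : (pw (⊤ : Subgroup H) n).Normal := pw_normal n inferInstance
  have h2 : Finite (H ⧸ pw (⊤ : Subgroup H) n) := by
    refine finite_of_tors inferInstance inferInstance fun x => ?_
    obtain ⟨y, rfl⟩ := QuotientGroup.mk_surjective x
    refine isOfFinOrder_iff_pow_eq_one.2 ⟨n, hn, ?_⟩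
    rw [← QuotientGroup.mk_pow, QuotientGroup.eq_one_iff]
    exact pow_mem (Subgroup.mem_top y)
  have h3 : (pw (⊤ : Subgroup H) n).FiniteIndex := Subgroup.finiteIndex_of_finite_quotient
  have h4 := pw_map H.subtype ⊤ n
  rw [← MonoidHom.range_eq_map, H.range_subtype] at h4
  refine ⟨?_⟩
  rw [← h4, Subgroup.index_map_subtype]
  exact mul_ne_zero h3.1 hH.1

theorem pw_gen {H : Subgroup G} {n : ℕ} (h : (pw H n).FG) :
    ∃ T : Finset G, (∀ t ∈ T, t ∈ H) ∧ pw H n = Subgroup.closure {x | ∃ t ∈ T, x = t ^ n} := by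
  classical
  have mono : ∀ T T' : Finset G, T ⊆ T' → Subgroup.closure {x | ∃ t ∈ T, x = t ^ n} ≤
      Subgroup.closure {x | ∃ t ∈ T', x = t ^ n} := fun T T' hT =>
    Subgroup.closure_mono fun _ ⟨t, ht, e⟩ => ⟨t, hT ht, e⟩
  have key : ∀ x ∈ pw H n, ∃ T : Finset G, (∀ t ∈ T, t ∈ H) ∧
      x ∈ Subgroup.closure {x | ∃ t ∈ T, x = t ^ n} := by
    intro x hx
    induction hx using Subgroup.closure_induction with
    | mem x hx =>
      obtain ⟨y, hy, rfl⟩ := hx
      exact ⟨{y}, by simpa using hy, Subgroup.subset_closure ⟨y, by simp, rfl⟩⟩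
    | one => exact ⟨∅, by simp, one_mem _⟩
    | mul x y _ _ hx hy =>
      obtain ⟨T, h1, h2⟩ := hx
      obtain ⟨T', h3, h4⟩ := hy
      exact ⟨T ∪ T', fun t ht => (Finset.mem_union.1 ht).elim (h1 t) (h3 t),
        mul_mem (mono _ _ Finset.subset_union_left h2) (mono _ _ Finset.subset_union_right h4)⟩
    | inv x _ hx =>
      obtain ⟨T, h1, h2⟩ := hx
      exact ⟨T, h1, inv_mem h2⟩
  obtain ⟨S, hS⟩ := h
  choose! T h1 h2 using key
  have h3 : ∀ x ∈ S, x ∈ pw H n := fun x hx => hS ▸ Subgroup.subset_closure hx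
  have h4 : ∀ t ∈ S.biUnion T, t ∈ H := fun t ht => by
    obtain ⟨x, hx, ht⟩ := Finset.mem_biUnion.1 ht
    exact h1 x (h3 x hx) t ht
  refine ⟨S.biUnion T, h4, le_antisymm ?_ ((Subgroup.closure_le _).2 ?_)⟩
  · rw [← hS]
    exact (Subgroup.closure_le _).2 fun x hx =>
      mono _ _ (Finset.subset_biUnion_of_mem T hx) (h2 x (h3 x hx))
  · rintro _ ⟨t, ht, rfl⟩
    exact pow_mem (h4 t ht)

/-- `K` is the top of a tower -/
def HasT (K : Subgroup G) : Prop :=
  ∃ (h : ℕ) (q : ℕ → ℕ) (L : ℕ → Subgroup G), Tower h q L ∧ L 0 = K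

theorem hasT_bot : HasT (⊥ : Subgroup G) :=
  ⟨0, fun _ => 2, fun _ => ⊥, ⟨fun _ => inferInstance, fun _ => le_rfl, rfl,
    fun _ => Nat.prime_two, fun _ => by simp, fun _ _ hx => Subgroup.pow_mem _ hx _⟩, rfl⟩

theorem hasT_cons {K Y : Subgroup G} {p : ℕ} (hp : p.Prime) (hK : K.Normal) (h1 : Y ≤ K)
    (h2 : ⁅K, K⁆ ≤ Y) (h3 : ∀ x ∈ K, x ^ p ∈ Y) (h : HasT Y) : HasT K := by
  obtain ⟨h, q, L, hT, rfl⟩ := h
  refine ⟨h + 1, fun a => Nat.casesOn a p q, fun a => Nat.casesOn a K L,
    ⟨?_, ?_, hT.bot, ?_, ?_, ?_⟩, rfl⟩ <;> rintro (_ | a)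
  exacts [hK, hT.normal a, h1, hT.anti a, hp, hT.prime a, h2, hT.comm a, h3, hT.pow a]

theorem hasT_ab {Y : Subgroup G} (hY : Y.Normal) (h : HasT Y) {m : ℕ} (hm : 0 < m) :
    ∀ K : Subgroup G, K.Normal → Y ≤ K → ⁅K, K⁆ ≤ Y → (∀ x ∈ K, x ^ m ∈ Y) → HasT K := by
  induction m using induction_on_primes with
  | zero => exact absurd hm (lt_irrefl 0)
  | one =>
    intro K _ h1 _ h3
    rwa [le_antisymm (fun x hx => pow_one x ▸ h3 x hx) h1]
  | prime_mul p a hp ih =>
    intro K hK h1 h2 h3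
    let K' : Subgroup G :=
      { carrier := {x | x ∈ K ∧ x ^ a ∈ Y}
        one_mem' := ⟨K.one_mem, by rw [one_pow]; exact Y.one_mem⟩
        inv_mem' := fun hx => ⟨K.inv_mem hx.1, by rw [inv_pow]; exact Y.inv_mem hx.2⟩
        mul_mem' := by
          rintro x y ⟨hx, hx'⟩ ⟨hy, hy'⟩
          refine ⟨K.mul_mem hx hy, ?_⟩
          have hc : Commute (x : G ⧸ Y) (y : G ⧸ Y) := by
            rw [← commutatorElement_eq_one_iff_commute]
            exact (QuotientGroup.eq_one_iff ⁅x, y⁆).2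
              (h2 (Subgroup.commutator_mem_commutator hx hy))
          rw [← QuotientGroup.eq_one_iff] at hx' hy' ⊢
          rw [QuotientGroup.mk_pow] at hx' hy' ⊢
          rw [QuotientGroup.mk_mul, hc.mul_pow, hx', hy', one_mul] }
    have h4 : K' ≤ K := fun x hx => hx.1
    have h5 : Y ≤ K' := fun x hx => ⟨h1 hx, Y.pow_mem hx a⟩
    refine hasT_cons hp hK h4 (h2.trans h5)
      (fun x hx => ⟨K.pow_mem hx p, by rw [← pow_mul]; exact h3 x hx⟩)
      (ih (Nat.pos_of_mul_pos_left hm) K' ⟨fun x hx g => ⟨hK.conj_mem x hx.1 g, ?_⟩⟩ h5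
        ((Subgroup.commutator_mono h4 h4).trans h2) fun x hx => hx.2)
    rw [conj_pow]
    exact hY.conj_mem _ hx.2 g

theorem tower {K : Subgroup G} (hs : Group.IsSolvable G) (hK : K.Normal) (hb : Bdd K) :
    HasT K := by
  obtain ⟨d, hd⟩ := hs.1
  obtain ⟨n, hn, hb⟩ := hb
  have key : ∀ i, HasT (K ⊓ derivedSeries G i) → HasT K := by
    intro i
    induction i with
    | zero => simp
    | succ i ih =>
      refine fun h => ih (hasT_ab inferInstance h hn _ inferInstance
        (inf_le_inf_left K (derivedSeries_antitone G (Nat.le_succ i)))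
        (le_inf ((Subgroup.commutator_le_self _).trans inf_le_left)
          (Subgroup.commutator_mono inf_le_right inf_le_right)) fun x hx => ?_)
      rw [hb x hx.1]
      exact one_mem _
  refine key d ?_
  rw [hd, inf_bot_eq]
  exact hasT_bot

theorem tower_exp {h : ℕ} {q : ℕ → ℕ} {L : ℕ → Subgroup G} (hT : Tower h q L) :
    LocFin (L 0) ∧ ∀ x ∈ L 0, x ^ (∏ a ∈ Finset.range h, q a) = 1 := by
  have h1 : ∀ a, ∀ x ∈ L 0, x ^ (∏ a ∈ Finset.range a, q a) ∈ L a := by
    intro a x hx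
    induction a with
    | zero => simpa using hx
    | succ a ih =>
      rw [Finset.prod_range_succ, pow_mul]
      exact hT.pow a _ ih
  have h2 : ∀ x ∈ L 0, x ^ (∏ a ∈ Finset.range h, q a) = 1 := fun x hx => by
    have := h1 h x hx
    rwa [hT.bot, Subgroup.mem_bot] at this
  refine ⟨fun T hTL => ?_, h2⟩
  have h3 : Subgroup.closure (↑T : Set G) ≤ L 0 := (Subgroup.closure_le _).2 hTL
  have h4 : ∀ a, (derivedSeries (Subgroup.closure (↑T : Set G)) a).map
      (Subgroup.closure (↑T : Set G)).subtype ≤ L a := by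
    intro a
    induction a with
    | zero => exact (Subgroup.map_subtype_le _).trans h3
    | succ a ih =>
      rw [derivedSeries_succ, Subgroup.map_commutator]
      exact (Subgroup.commutator_mono ih ih).trans (hT.comm a)
  refine finite_of_tors ⟨h, ?_⟩ inferInstance fun x => ?_
  · rw [← Subgroup.map_eq_bot_iff_of_injective _ (Subgroup.subtype_injective _), eq_bot_iff,
      ← hT.bot]
    exact h4 h
  · exact isOfFinOrder_iff_pow_eq_one.2 ⟨_, Finset.prod_pos fun a _ => (hT.prime a).pos,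
      Subtype.ext (h2 x (h3 x.2))⟩

end BFinA

open BFinA in
theorem bFin : BFin where
  locFin G _ X hs h T hT := by
    refine finite_of_tors inferInstance inferInstance fun x => ?_
    obtain ⟨n, hn, e⟩ := isOfFinOrder_iff_pow_eq_one.1 (h x ((Subgroup.closure_le X).2 hT x.2))
    exact isOfFinOrder_iff_pow_eq_one.2 ⟨n, hn, Subtype.ext e⟩
  pwNormal _ _ _ n h := pw_normal n h
  pwMap _ _ _ _ f H n := pw_map f H n
  pwFI _ _ _ _ hs hf hH hn := pw_fi hs hf hH hn
  pwGen _ _ _ _ h := pw_gen h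
  del G _ L j hs hf hL := by
    have key : (Del G L j).Normal ∧ (Del G L j).FiniteIndex := by
      induction j with
      | zero => exact ⟨Subgroup.normal_top, ⟨Subgroup.index_top.trans_ne one_ne_zero⟩⟩
      | succ j ih => exact ⟨pw_normal L ih.1, pw_fi hs hf ih.2 hL⟩
    have := key.2
    exact ⟨key.1, key.2, (Group.fg_iff_subgroup_fg _).1 inferInstance⟩
  delMap G G' _ _ f L j hf := by
    induction j with
    | zero => exact Subgroup.map_top_of_surjective f hf
    | succ j ih => rw [Del, Del, pw_map, ih]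
  tower _ _ _ hs hK hb := BFinA.tower hs hK hb
  towerExp _ _ _ _ _ hT := tower_exp hT

end Pool.Agent.MP_5c28a4_al.H89S
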